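import Pool.Agent.Zk43.HC.N5

/-!
# Every finite partition of the positive integers has a class that represents every positive rational

Hahn's question: let the positive integers be partitioned into finitely many classes. Is there a single class such that
every positive rational is a finite sum of reciprocals of distinct elements of this class? The answer is yes; moreover all
denominators can be taken larger than any given bound.

Proof. (1) For every number `r` of colours and every bound there is a finite monochromatic set of integers above the bound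
with reciprocal sum `1` (`Pool.Agent.Zk43.HC.colour_one`). Let `t` be large. We use the squarefree integers `n = a b`, `b ≤ t`
squarefree and `a` a product of four primes, one from each of the intervals `(t^i, t^(i+1)]`, `i = 25, …, 28`. Some colour class
has a proportion `1 / r` of the harmonic mass (of order `log t`) of these integers; delete the multiples of those primes which
have few multiples in it. Choose a random subset, every element with probability `1 / mass`: the expected value of the
reciprocal sum `X` is `1`, and `|X - 1| < 1` outside an event of probability `exp (- c t^106)`. The probability that `X` is an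
integer is the average over the frequencies `h` modulo `P` (the product of the remaining primes, all `≤ t^29`) of the
characteristic function. It is at least `1 / (2 P)`: the real part is nonnegative for the small frequencies, because the
arguments of the factors add up to (almost) `2 π h`; otherwise the characteristic function is tiny unless for every prime `p`
half of the multiples of `p` have a multiple within `t^85` of `h`. In this case there is for every `p` an integer near `h` which
is divisible by `p` and by most of the small primes (measured by the sum of the reciprocals), because all multiples of the same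
large part `a` have the same multiple near `h`; two such integers have too many common prime factors to be different, so one
integer near `h` is divisible by `P`.
(2) By (1), applied to the colourings `n ↦ c (m n)`, for every `m` some class represents `1 / m` with denominators above any
bound, so it represents all multiples of `1 / m`. If this failed for the class `i` and `m = m_i`, for every `i`, then `m = ∏ m_i`
gives a contradiction.
-/

set_option autoImplicit false

namespace Pool.Agent.Zk43.Keep.OneClassSuffices

open Finset

/-- Let `C_1, …, C_k` be finitely many classes which cover the positive integers (in particular any finite partition). There is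
ONE class `C_i` such that every positive rational number `q` is a finite sum of reciprocals of distinct elements of `C_i`;
moreover, for every `M` this is possible with all denominators larger than `M`. -/
theorem result (k : ℕ) (C : Fin k → Set ℕ) (hC : ∀ n : ℕ, 1 ≤ n → ∃ i, n ∈ C i) :
    ∃ i, ∀ q : ℚ, 0 < q → ∀ M : ℕ, ∃ F : Finset ℕ, (∀ n ∈ F, M < n ∧ n ∈ C i) ∧ ∑ n ∈ F, (1 : ℚ) / n = q := by
  classical
  obtain ⟨i₀, -⟩ := hC 1 le_rfl
  have hk : 1 ≤ k := Nat.one_le_iff_ne_zero.2 (by rintro rfl; exact i₀.elim0)
  -- the colouring
  set c : ℕ → Fin k := fun n => if h : 1 ≤ n then (hC n h).choose else i₀ with hc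
  have hcC : ∀ n : ℕ, 1 ≤ n → n ∈ C (c n) := by
    intro n hn
    have : c n = (hC n hn).choose := by rw [hc]; simp only [dif_pos hn]
    rw [this]
    exact (hC n hn).choose_spec
  -- a class represents `1 / m` with large denominators
  have hm : ∀ m : ℕ, 1 ≤ m → ∀ M : ℕ, ∃ i, ∃ F : Finset ℕ, (∀ n ∈ F, M < n ∧ n ∈ C i) ∧
      ∑ n ∈ F, (1 : ℚ) / n = 1 / m := by
    intro m hm M
    obtain ⟨t, ht, htM⟩ := ((Pool.Agent.Zk43.HC.colour_one k hk).and (Filter.eventually_gt_atTop M)).exists
    obtain ⟨i, F, hF, hsum⟩ := ht (fun n => c (m * n))
    have hmpos : 0 < m := hm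
    refine ⟨i, F.image (fun n => m * n), ?_, ?_⟩
    · intro n hn
      rw [Finset.mem_image] at hn
      obtain ⟨a, ha, rfl⟩ := hn
      have h1 := hF a ha
      have h2 : M < m * a := lt_of_lt_of_le (lt_of_lt_of_le htM h1.1) (Nat.le_mul_of_pos_left a hmpos)
      refine ⟨h2, ?_⟩
      have h3 := hcC (m * a) (by omega)
      rw [h1.2] at h3
      exact h3
    · rw [Finset.sum_image (fun a _ b _ hab => Nat.eq_of_mul_eq_mul_left hmpos hab)]
      have h4 : ∑ n ∈ F, (1 : ℚ) / n = 1 := by
        have : ((∑ n ∈ F, (1 : ℚ) / n : ℚ) : ℝ) = ((1 : ℚ) : ℝ) := by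
          push_cast
          exact hsum
        exact_mod_cast this
      calc ∑ n ∈ F, (1 : ℚ) / ((m * n : ℕ) : ℚ) = (1 : ℚ) / m * ∑ n ∈ F, (1 : ℚ) / n := by
            rw [Finset.mul_sum]
            refine Finset.sum_congr rfl fun n _ => ?_
            push_cast
            rw [one_div_mul_one_div]
        _ = 1 / m := by rw [h4, mul_one]
  -- one class for one `m`
  have hG : ∀ m : ℕ, 1 ≤ m → ∃ i, ∀ M : ℕ, ∃ F : Finset ℕ, (∀ n ∈ F, M < n ∧ n ∈ C i) ∧
      ∑ n ∈ F, (1 : ℚ) / n = 1 / m := by
    intro m hm1
    by_contra hno
    push Not at hno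
    choose M hM using hno
    obtain ⟨i, F, hF, hs⟩ := hm m hm1 (∑ i, M i)
    refine hM i F (fun n hn => ⟨?_, (hF n hn).2⟩) hs
    exact lt_of_le_of_lt (Finset.single_le_sum (f := M) (fun _ _ => Nat.zero_le _) (Finset.mem_univ i)) (hF n hn).1
  -- multiples
  have hmul : ∀ (i : Fin k) (m : ℕ), (∀ M : ℕ, ∃ F : Finset ℕ, (∀ n ∈ F, M < n ∧ n ∈ C i) ∧
      ∑ n ∈ F, (1 : ℚ) / n = 1 / m) → ∀ (j : ℕ) (M : ℕ), ∃ F : Finset ℕ, (∀ n ∈ F, M < n ∧ n ∈ C i) ∧
      ∑ n ∈ F, (1 : ℚ) / n = j / m := by
    intro i m h j
    induction j with
    | zero => intro M; exact ⟨∅, by simp, by simp⟩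
    | succ j ih =>
      intro M
      obtain ⟨F, hF, hs⟩ := ih M
      obtain ⟨G, hG, hs2⟩ := h (M + F.sup id)
      have hdisj : Disjoint F G := by
        rw [Finset.disjoint_left]
        intro n hn1 hn2
        have h1 := (hG n hn2).1
        have h2 : n ≤ F.sup id := Finset.le_sup (f := id) hn1
        omega
      refine ⟨F ∪ G, ?_, ?_⟩
      · intro n hn
        rcases Finset.mem_union.1 hn with h1 | h1
        · exact hF n h1
        · have := hG n h1
          exact ⟨by omega, this.2⟩
      · rw [Finset.sum_union hdisj, hs, hs2]
        push_cast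
        ring
  -- one class for all `m`
  have hall : ∃ i, ∀ m : ℕ, 1 ≤ m → ∀ M : ℕ, ∃ F : Finset ℕ, (∀ n ∈ F, M < n ∧ n ∈ C i) ∧
      ∑ n ∈ F, (1 : ℚ) / n = 1 / m := by
    by_contra hno
    push Not at hno
    choose m hm1 M hM using hno
    have hprod : 1 ≤ ∏ i, m i := Nat.one_le_iff_ne_zero.2 (Finset.prod_ne_zero_iff.2 fun i _ => by
      have := hm1 i; omega)
    obtain ⟨i, hi⟩ := hG (∏ i, m i) hprod
    obtain ⟨d, hd⟩ : m i ∣ ∏ i, m i := Finset.dvd_prod_of_mem m (Finset.mem_univ i)
    obtain ⟨F, hF, hs⟩ := hmul i (∏ i, m i) hi d (M i)
    refine hM i F hF ?_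
    rw [hs, hd]
    have h1 : (m i : ℚ) ≠ 0 := by have := hm1 i; positivity
    have h2 : (d : ℚ) ≠ 0 := by
      intro h0
      have : d = 0 := by exact_mod_cast h0
      rw [this, Nat.mul_zero] at hd
      omega
    push_cast
    field_simp
  obtain ⟨i, hi⟩ := hall
  refine ⟨i, fun q hq M => ?_⟩
  have hden : 1 ≤ q.den := q.den_pos
  obtain ⟨F, hF, hs⟩ := hmul i q.den (hi q.den hden) q.num.toNat M
  refine ⟨F, hF, ?_⟩
  rw [hs]
  have h1 : ((q.num.toNat : ℕ) : ℚ) = (q.num : ℚ) := by
    have : ((q.num.toNat : ℕ) : ℤ) = q.num := Int.toNat_of_nonneg (Rat.num_nonneg.2 hq.le)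
    exact_mod_cast this
  rw [h1]
  exact Rat.num_div_den q

end Pool.Agent.Zk43.Keep.OneClassSuffices
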